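import Pool.Agent.L5helper29.AA.Defs

/-!
# The number of irreducible polynomials of given degree and given constant term over `ZMod r`

The elements of `GaloisField r N` of norm `a` are at least `r ^ (N - 1)` in number, and all but
`O(r ^ (N - 2))` of them generate the field; the minimal polynomial has at most `N` roots.
-/

set_option autoImplicit false

namespace Pool.Agent.L5helper6.AA

open Polynomial Pool.Agent.W458.MF Pool.Agent.L5helper29.AA

open scoped IntermediateField

/-- the norm of an element in terms of its minimal polynomial -/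
lemma norm_eq_coeff {k K : Type} [Field k] [Field K] [Algebra k K] [FiniteDimensional k K]
    (x : K) : Algebra.norm k x =
      ((-1) ^ (minpoly k x).natDegree * (minpoly k x).coeff 0) ^ Module.finrank k⟮x⟯ K := by
  have hx : IsIntegral k x := Algebra.IsIntegral.isIntegral x
  rw [Algebra.norm_eq_norm_adjoin k x]
  congr 1
  have h := Algebra.PowerBasis.norm_gen_eq_coeff_zero_minpoly
    (IntermediateField.adjoin.powerBasis hx)
  rw [IntermediateField.adjoin.powerBasis_gen] at h
  rw [h, IntermediateField.adjoin.powerBasis_dim, IntermediateField.minpoly_gen]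

/-- the number of elements of given norm -/
lemma card_norm {r N : ℕ} [Fact r.Prime] (hN : N ≠ 0) (a : ZMod r) (ha : a ≠ 0) :
    r ^ (N - 1) ≤ {x : GaloisField r N | Algebra.norm (ZMod r) x = a}.ncard := by
  classical
  haveI : Fintype (GaloisField r N) := Fintype.ofFinite _
  have hr : 2 ≤ r := (Fact.out : r.Prime).two_le
  set φ : (GaloisField r N)ˣ →* (ZMod r)ˣ := Units.map (Algebra.norm (ZMod r)) with hφ
  have hsurj : Function.Surjective φ := FiniteField.unitsMap_norm_surjective (ZMod r) (GaloisField r N)
  set u : (ZMod r)ˣ := Units.mk0 a ha with hu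
  have hfib : ∀ y : (ZMod r)ˣ, (Finset.univ.filter fun g => φ g = y).card =
      (Finset.univ.filter fun g => φ g = u).card := fun y =>
    MonoidHom.card_fiber_eq_of_mem_range φ (hsurj y) (hsurj u)
  have hcard : (Fintype.card (GaloisField r N)ˣ) =
      Fintype.card (ZMod r)ˣ * (Finset.univ.filter fun g => φ g = u).card := by
    rw [← Finset.card_univ, Finset.card_eq_sum_card_fiberwise (f := φ) (t := Finset.univ)
      (fun _ _ => Finset.mem_coe.mpr (Finset.mem_univ _))]
    rw [Finset.sum_congr rfl (fun y _ => hfib y), Finset.sum_const, Finset.card_univ,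
      smul_eq_mul]
  have h1 : Fintype.card (GaloisField r N)ˣ = r ^ N - 1 := by
    rw [Fintype.card_units, ← Nat.card_eq_fintype_card, GaloisField.card r N hN]
  have h2 : Fintype.card (ZMod r)ˣ = r - 1 := by
    rw [ZMod.card_units_eq_totient, Nat.totient_prime Fact.out]
  rw [h1, h2] at hcard
  have h3 : (Finset.univ.filter fun g => φ g = u).card ≤
      {x : GaloisField r N | Algebra.norm (ZMod r) x = a}.ncard := by
    rw [← Set.ncard_coe_finset]
    apply Set.ncard_le_ncard_of_injOn (fun g : (GaloisField r N)ˣ => (g : GaloisField r N))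
    · intro g hg
      simp only [Finset.coe_filter, Finset.mem_univ, true_and, Set.mem_setOf_eq] at hg ⊢
      have := congrArg Units.val hg
      simpa [hφ, hu] using this
    · intro g _ g' _ h
      exact Units.ext h
  refine le_trans ?_ h3
  obtain ⟨M, rfl⟩ : ∃ M, N = M + 1 := ⟨N - 1, by omega⟩
  obtain ⟨s, rfl⟩ : ∃ s, r = s + 1 := ⟨r - 1, by omega⟩
  simp only [Nat.add_sub_cancel] at hcard ⊢
  have h4 : 0 < (s + 1) ^ M := by positivity
  have h5 : s * (s + 1) ^ M ≤ (s + 1) ^ (M + 1) - 1 := by
    rw [pow_succ]
    have : (s + 1) ^ M * (s + 1) = s * (s + 1) ^ M + (s + 1) ^ M := by ring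
    omega
  rw [hcard] at h5
  exact Nat.le_of_mul_le_mul_left h5 (by omega)

lemma finite_natDegree_le (r N : ℕ) [Fact r.Prime] : {f : (ZMod r)[X] | f.natDegree ≤ N}.Finite := by
  apply Set.Finite.of_finite_image (f := fun f : (ZMod r)[X] => fun i : Fin (N + 1) => f.coeff i)
    (Set.toFinite _)
  intro f hf g hg h
  ext i
  rcases Nat.lt_or_ge i (N + 1) with h1 | h1
  · exact congrFun h ⟨i, h1⟩
  · have hf' : f.natDegree ≤ N := hf
    have hg' : g.natDegree ≤ N := hg
    rw [Polynomial.coeff_eq_zero_of_natDegree_lt (by omega),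
      Polynomial.coeff_eq_zero_of_natDegree_lt (by omega)]

/-- IRR0: the number of irreducible polynomials with given constant term. -/
theorem irr0 : St_IRR0 := by
  classical
  intro N hN
  refine ⟨1 / (2 * N), by positivity, 2 * N ^ 3 * (N + 1), ?_⟩
  intro r hr hrN a ha
  haveI : Fact r.Prime := ⟨hr⟩
  haveI : Fintype (GaloisField r N) := Fintype.ofFinite _
  have hN0 : N ≠ 0 := by omega
  have hfin : Module.finrank (ZMod r) (GaloisField r N) = N := GaloisField.finrank r hN0
  set b : ZMod r := (-1) ^ N * a with hb
  have hb0 : b ≠ 0 := mul_ne_zero (pow_ne_zero _ (by simp)) ha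
  have hA := card_norm (r := r) (N := N) hN0 b hb0
  set A : Finset (GaloisField r N) := Finset.univ.filter (fun x => Algebra.norm (ZMod r) x = b)
    with hAdef
  have hA' : {x : GaloisField r N | Algebra.norm (ZMod r) x = b}.ncard = A.card := by
    rw [← Set.ncard_coe_finset]
    congr 1
    ext x
    simp [hAdef]
  rw [hA'] at hA
  -- minimal polynomials
  set I : Finset (ZMod r)[X] := A.image (minpoly (ZMod r)) with hI
  have hint : ∀ x : GaloisField r N, IsIntegral (ZMod r) x := fun x =>
    Algebra.IsIntegral.isIntegral x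
  have hdeg : ∀ x : GaloisField r N, (minpoly (ZMod r) x).natDegree ≤ N := by
    intro x
    have := minpoly.natDegree_le (A := ZMod r) x
    rwa [hfin] at this
  have hAI : A.card ≤ N * I.card := by
    apply Finset.card_le_mul_card_image
    intro f hf
    obtain ⟨x, _, rfl⟩ := Finset.mem_image.mp hf
    have h1 : (A.filter fun y => minpoly (ZMod r) y = minpoly (ZMod r) x) ⊆
        ((minpoly (ZMod r) x).aroots (GaloisField r N)).toFinset := by
      intro y hy
      rw [Finset.mem_filter] at hy
      rw [Multiset.mem_toFinset, Polynomial.mem_aroots]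
      refine ⟨(minpoly.ne_zero (hint x)), ?_⟩
      rw [← hy.2]
      exact minpoly.aeval _ _
    refine (Finset.card_le_card h1).trans ((Multiset.toFinset_card_le _).trans ?_)
    exact (Polynomial.card_roots' _).trans (Polynomial.natDegree_map_le.trans (hdeg x))
  -- the set of `(-1)^d f(0)`
  set Z : Finset (ZMod r) := (Finset.range (N + 1)).biUnion
    (fun e => (nthRoots e b).toFinset) with hZ
  have hZc : Z.card ≤ (N + 1) * N := by
    refine Finset.card_biUnion_le.trans ?_
    have : ∀ e ∈ Finset.range (N + 1), (nthRoots e b).toFinset.card ≤ N := by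
      intro e he
      refine (Multiset.toFinset_card_le _).trans ((Polynomial.card_nthRoots e b).trans ?_)
      have := Finset.mem_range.mp he
      omega
    refine (Finset.sum_le_card_nsmul _ _ _ this).trans ?_
    simp
  set J : Finset (ZMod r)[X] := I.filter (fun f => f.natDegree < N) with hJ
  have hJc : J.card ≤ N * ((N + 1) * N * r ^ (N - 2)) := by
    have h1 : J.card ≤ ((Finset.range N) ×ˢ (Z ×ˢ
        (Finset.univ : Finset (Fin (N - 2) → ZMod r)))).card := by
      apply Finset.card_le_card_of_injOn
        (fun f : (ZMod r)[X] => (f.natDegree, ((-1) ^ f.natDegree * f.coeff 0,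
          fun i : Fin (N - 2) => f.coeff (i + 1))))
      · intro f hf
        have hf' : f ∈ J := hf
        rw [hJ, Finset.mem_filter] at hf'
        obtain ⟨x, hx, rfl⟩ := Finset.mem_image.mp hf'.1
        rw [hAdef, Finset.mem_filter] at hx
        have hn := hx.2
        rw [norm_eq_coeff x] at hn
        rw [Finset.mem_coe, Finset.mem_product, Finset.mem_product]
        refine ⟨Finset.mem_range.mpr hf'.2, ?_, Finset.mem_univ _⟩
        rw [hZ, Finset.mem_biUnion]
        have hpos : 0 < Module.finrank (ZMod r)⟮x⟯ (GaloisField r N) := Module.finrank_pos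
        have hle : Module.finrank (ZMod r)⟮x⟯ (GaloisField r N) ≤ N := by
          have h3 := Module.finrank_mul_finrank (ZMod r) (ZMod r)⟮x⟯ (GaloisField r N)
          rw [hfin] at h3
          exact Nat.le_of_dvd (by omega) (Dvd.intro_left _ h3)
        refine ⟨Module.finrank (ZMod r)⟮x⟯ (GaloisField r N), Finset.mem_range.mpr (by omega), ?_⟩
        rw [Multiset.mem_toFinset, Polynomial.mem_nthRoots hpos]
        exact hn
      · intro f hf g hg h
        have hf' : f ∈ J := hf
        have hg' : g ∈ J := hg
        rw [hJ, Finset.mem_filter] at hf' hg'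
        have hmon : ∀ f ∈ I, f.Monic := by
          intro f hf
          obtain ⟨x, _, rfl⟩ := Finset.mem_image.mp hf
          exact minpoly.monic (hint x)
        have hfm := hmon f hf'.1
        have hgm := hmon g hg'.1
        simp only [Prod.mk.injEq] at h
        obtain ⟨h1, h2, h3⟩ := h
        rw [h1] at h2
        have h4 : f.coeff 0 = g.coeff 0 := mul_left_cancel₀ (pow_ne_zero _ (by simp)) h2
        ext i
        rcases Nat.eq_zero_or_pos i with rfl | hi
        · exact h4
        · rcases Nat.lt_or_ge (i - 1) (N - 2) with h5 | h5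
          · have := congrFun h3 ⟨i - 1, h5⟩
            simp only at this
            rwa [Nat.sub_add_cancel hi] at this
          · rcases Nat.lt_or_ge f.natDegree i with h6 | h6
            · rw [Polynomial.coeff_eq_zero_of_natDegree_lt h6,
                Polynomial.coeff_eq_zero_of_natDegree_lt (by omega)]
            · have h7 : i = f.natDegree := by omega
              rw [h7, hfm.coeff_natDegree, h1, hgm.coeff_natDegree]
    refine h1.trans ?_
    rw [Finset.card_product, Finset.card_product, Finset.card_range, Finset.card_univ,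
      Fintype.card_fun, Fintype.card_fin, ZMod.card]
    exact Nat.mul_le_mul_left _ (Nat.mul_le_mul_right _ hZc)
  set T : Set (ZMod r)[X] := {f : (ZMod r)[X] | f ∈ irrSet N r ∧ f.coeff 0 = a} with hT
  have hTfin : T.Finite := by
    apply (finite_natDegree_le r N).subset
    intro f hf
    exact hf.1.2.1.le
  have hIT : (I.filter (fun f => ¬ f.natDegree < N)).card ≤ T.ncard := by
    rw [← Set.ncard_coe_finset]
    apply Set.ncard_le_ncard _ hTfin
    intro f hf
    simp only [Finset.coe_filter, Set.mem_setOf_eq] at hf
    obtain ⟨x, hx, rfl⟩ := Finset.mem_image.mp hf.1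
    have hd : (minpoly (ZMod r) x).natDegree = N := le_antisymm (hdeg x) (not_lt.mp hf.2)
    refine ⟨⟨minpoly.monic (hint x), hd, minpoly.irreducible (hint x)⟩, ?_⟩
    rw [hAdef, Finset.mem_filter] at hx
    have hn := hx.2
    rw [norm_eq_coeff x] at hn
    have h1 : Module.finrank (ZMod r) (ZMod r)⟮x⟯ = N := by
      rw [IntermediateField.adjoin.finrank (hint x), hd]
    have h2 : Module.finrank (ZMod r)⟮x⟯ (GaloisField r N) = 1 := by
      have h3 := Module.finrank_mul_finrank (ZMod r) (ZMod r)⟮x⟯ (GaloisField r N)
      rw [hfin, h1] at h3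
      exact Nat.eq_of_mul_eq_mul_left (by omega : 0 < N) (by omega)
    rw [h2, pow_one, hd, hb] at hn
    exact mul_left_cancel₀ (pow_ne_zero _ (by simp)) hn
  have hIc : I.card = J.card + (I.filter (fun f => ¬ f.natDegree < N)).card := by
    rw [hJ, Finset.card_filter_add_card_filter_not]
  -- conclusion
  have hfinal : r ^ (N - 1) ≤ N * (N * ((N + 1) * N * r ^ (N - 2)) + T.ncard) := by
    calc r ^ (N - 1) ≤ A.card := hA
      _ ≤ N * I.card := hAI
      _ ≤ _ := Nat.mul_le_mul_left _ (by rw [hIc]; exact Nat.add_le_add hJc hIT)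
  have h10 : 2 * (N * (N * ((N + 1) * N * r ^ (N - 2)))) ≤ r ^ (N - 1) := by
    have h11 : r ^ (N - 1) = r * r ^ (N - 2) := by
      rw [← pow_succ']; congr 1; omega
    rw [h11]
    calc 2 * (N * (N * ((N + 1) * N * r ^ (N - 2)))) = (2 * N ^ 3 * (N + 1)) * r ^ (N - 2) := by
          ring
      _ ≤ _ := Nat.mul_le_mul_right _ hrN
  have h12 : r ^ (N - 1) ≤ 2 * N * T.ncard := by
    have h13 : N * (N * ((N + 1) * N * r ^ (N - 2)) + T.ncard) =
      N * (N * ((N + 1) * N * r ^ (N - 2))) + N * T.ncard := by ring
    rw [h13] at hfinal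
    have h14 : 2 * N * T.ncard = 2 * (N * T.ncard) := by ring
    omega
  have h15 : ((r : ℝ) ^ (N - 1)) ≤ 2 * N * (T.ncard : ℝ) := by exact_mod_cast h12
  have hNpos : (0 : ℝ) < 2 * N := by positivity
  rw [div_mul_eq_mul_div, one_mul, div_le_iff₀ hNpos]
  linarith

end Pool.Agent.L5helper6.AA
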