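import Pool.Agent.L5helper6.AA.Irr0

/-!
# The number of products of a linear and an irreducible factor with given constant term
-/

set_option autoImplicit false

namespace Pool.Agent.L5helper6.AA

open Polynomial Pool.Agent.W458.MF Pool.Agent.L5helper29.AA

lemma irrSet_finite (n r : ℕ) [Fact r.Prime] : (irrSet n r).Finite :=
  (finite_natDegree_le r n).subset fun _ hf => hf.2.1.le

/-- the number of irreducible polynomials -/
lemma card_irrSet (n : ℕ) (hn : 2 ≤ n) : ∃ c : ℝ, 0 < c ∧ ∃ r₁ : ℕ, ∀ r : ℕ, r.Prime → r₁ ≤ r →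
    c * (r : ℝ) ^ n ≤ ((irrSet n r).ncard : ℝ) := by
  classical
  obtain ⟨c, hc, r₁, h⟩ := irr0 n hn
  refine ⟨c / 2, by positivity, r₁, fun r hr hr1 => ?_⟩
  haveI : Fact r.Prime := ⟨hr⟩
  set I := (irrSet_finite n r).toFinset with hI
  have hIc : (irrSet n r).ncard = I.card := by
    rw [Set.ncard_eq_toFinset_card _ (irrSet_finite n r)]
  have h1 : I.card = ∑ a : ZMod r, (I.filter fun f => f.coeff 0 = a).card :=
    Finset.card_eq_sum_card_fiberwise (fun _ _ => Finset.mem_coe.mpr (Finset.mem_univ _))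
  have h2 : ∀ a : ZMod r, a ≠ 0 → c * (r : ℝ) ^ (n - 1) ≤
      ((I.filter fun f => f.coeff 0 = a).card : ℝ) := by
    intro a ha
    have h3 := h r hr hr1 a ha
    have h4 : {f : (ZMod r)[X] | f ∈ irrSet n r ∧ f.coeff 0 = a}.ncard =
        (I.filter fun f => f.coeff 0 = a).card := by
      rw [← Set.ncard_coe_finset]
      congr 1
      ext f
      simp [hI]
    rwa [h4] at h3
  have h5 : ((r : ℝ) - 1) * (c * (r : ℝ) ^ (n - 1)) ≤ (I.card : ℝ) := by
    rw [h1]
    push_cast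
    calc ((r : ℝ) - 1) * (c * (r : ℝ) ^ (n - 1))
        = ∑ a ∈ (Finset.univ : Finset (ZMod r)).erase 0, c * (r : ℝ) ^ (n - 1) := by
          rw [Finset.sum_const, Finset.card_erase_of_mem (Finset.mem_univ _), Finset.card_univ,
            ZMod.card, nsmul_eq_mul, Nat.cast_sub hr.one_lt.le]
          simp
      _ ≤ ∑ a ∈ (Finset.univ : Finset (ZMod r)).erase 0,
            ((I.filter fun f => f.coeff 0 = a).card : ℝ) :=
          Finset.sum_le_sum fun a ha => h2 a (Finset.ne_of_mem_erase ha)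
      _ ≤ _ := Finset.sum_le_sum_of_subset_of_nonneg (Finset.subset_univ _)
          (fun _ _ _ => Nat.cast_nonneg _)
  rw [hIc]
  refine le_trans ?_ h5
  have h6 : (r : ℝ) ^ n = r * (r : ℝ) ^ (n - 1) := by
    rw [← pow_succ']; congr 1; omega
  have h7 : (2 : ℝ) ≤ r := by exact_mod_cast hr.two_le
  have h8 : (0 : ℝ) ≤ (r : ℝ) ^ (n - 1) := by positivity
  rw [h6]
  have : ((r : ℝ) - 1) * (c * (r : ℝ) ^ (n - 1)) - c / 2 * (r * (r : ℝ) ^ (n - 1)) =
    (c * (r : ℝ) ^ (n - 1)) * (r / 2 - 1) := by ring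
  have h9 : 0 ≤ (c * (r : ℝ) ^ (n - 1)) * (r / 2 - 1) :=
    mul_nonneg (mul_nonneg hc.le h8) (by linarith)
  linarith

/-- LIN0 -/
theorem lin0 : St_LIN0 := by
  classical
  intro N hN
  obtain ⟨n, rfl⟩ : ∃ n, N = n + 1 := ⟨N - 1, by omega⟩
  obtain ⟨c, hc, r₁, h⟩ := card_irrSet n (by omega)
  refine ⟨c, hc, r₁, fun r hr hr1 a ha => ?_⟩
  haveI : Fact r.Prime := ⟨hr⟩
  have h1 := h r hr hr1
  rw [Nat.add_sub_cancel]
  refine h1.trans ?_
  have h0 : ∀ g ∈ irrSet n r, g.coeff 0 ≠ 0 := by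
    intro g hg h0
    have h2 : g.IsRoot 0 := by rw [IsRoot.def, ← coeff_zero_eq_eval_zero]; exact h0
    have h3 : g.natDegree = 1 :=
      natDegree_eq_of_degree_eq_some (degree_eq_one_of_irreducible_of_root hg.2.2 h2)
    have h4 : g.natDegree = n := hg.2.1
    omega
  have hinj : Set.InjOn (fun g : (ZMod r)[X] => (X - C (-a / g.coeff 0)) * g) (irrSet n r) := by
    intro g hg g' hg' hgg
    have h2 : g ∣ (X - C (-a / g'.coeff 0)) * g' := by
      have h5 : (X - C (-a / g.coeff 0)) * g = (X - C (-a / g'.coeff 0)) * g' := hgg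
      rw [← h5]
      exact dvd_mul_left _ _
    have h3 : g ∣ (X - C (-a / g'.coeff 0)) ∨ g ∣ g' := hg.2.2.prime.dvd_or_dvd h2
    rcases h3 with h3 | h3
    · exfalso
      have h4 := Polynomial.natDegree_le_of_dvd h3 (X_sub_C_ne_zero _)
      rw [natDegree_X_sub_C, hg.2.1] at h4
      omega
    · exact (Polynomial.eq_of_monic_of_dvd_of_natDegree_le hg.1 hg'.1 h3
        (by rw [hg.2.1, hg'.2.1])).symm
  have hfin : {f : (ZMod r)[X] | f ∈ linIrr (n + 1) r ∧ f.coeff 0 = a}.Finite := by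
    apply (finite_natDegree_le r (n + 1)).subset
    rintro f ⟨⟨b, g, rfl, hg⟩, _⟩
    have h2 : g.natDegree = n := by simpa using hg.2.1
    refine (natDegree_mul_le).trans ?_
    rw [natDegree_X_sub_C, h2]
    omega
  have h3 : (irrSet n r).ncard ≤ {f : (ZMod r)[X] | f ∈ linIrr (n + 1) r ∧ f.coeff 0 = a}.ncard := by
    apply Set.ncard_le_ncard_of_injOn _ _ hinj hfin
    intro g hg
    refine ⟨⟨_, g, rfl, by simpa using hg⟩, ?_⟩
    simp only [mul_coeff_zero, coeff_sub, coeff_X_zero, coeff_C_zero]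
    field_simp [h0 g hg]
    ring
  exact_mod_cast h3

end Pool.Agent.L5helper6.AA
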