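import Pool.Agent.L5helper29.AA.SieveStm
import Pool.Agent.W216.MF.Uni

/-!
# The sieve, general form
-/

set_option autoImplicit false

namespace Pool.Agent.L5helper6.AA

open Pool.Agent.L5helper29.AA

/-- SIEVEG -/
theorem sieveg : St_SIEVEG := by
  classical
  intro I κ _ _ S _ G hG X f π hπ hE E c hc hshare ε hε
  set C : ℝ := c ^ Fintype.card I with hC
  have hCpos : 0 < C := pow_pos hc _
  set η : ℝ := ε / ((Fintype.card κ : ℝ) + 1) with hη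
  have hηpos : 0 < η := by positivity
  obtain ⟨M, hM⟩ := exists_nat_gt (2 / (C * η))
  obtain ⟨Q, hQ, hQM⟩ := hG.exists_subset_card_eq (M + 2)
  have hQG : ∀ l : Q, (l : ℕ) ∈ G := fun l => hQ l.2
  set d : ℝ := η * C ^ 2 / 8 with hd
  have hdpos : 0 < d := by positivity
  have hev : ∀ᶠ n in Filter.atTop, ∀ l l' : Q, l ≠ l' → Nonempty (S n) →
      ∀ (A : I → Set (X ⟨l, hQG l⟩)) (A' : I → Set (X ⟨l', hQG l'⟩)),
        |({s : S n | ∀ i, f n s i ⟨l, hQG l⟩ ∈ A i ∧ f n s i ⟨l', hQG l'⟩ ∈ A' i}.ncard : ℝ) /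
            (Nat.card (S n) : ℝ) -
          ∏ i, π n i ⟨l, hQG l⟩ (A i) * π n i ⟨l', hQG l'⟩ (A' i)| ≤ d / 2 := by
    rw [Filter.eventually_all]
    intro l
    rw [Filter.eventually_all]
    intro l'
    by_cases hll : l = l'
    · exact Filter.Eventually.of_forall fun m h => absurd hll h
    · obtain ⟨n₀, h4⟩ := hE ⟨l, hQG l⟩ ⟨l', hQG l'⟩
        (fun h => hll (Subtype.ext (by simpa using h))) (d / 2) (by positivity)
      exact Filter.eventually_atTop.2 ⟨n₀, fun n hn _ hne => h4 n hn hne⟩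
  obtain ⟨n₀, hn₀⟩ := Filter.eventually_atTop.1 hev
  refine ⟨n₀, fun n hn => ?_⟩
  by_cases hne : Nonempty (S n)
  swap
  · have : IsEmpty (S n) := not_nonempty_iff.mp hne
    rw [Set.eq_empty_of_isEmpty {s : S n | _}, Set.ncard_empty, Nat.cast_zero]
    positivity
  have hS0 : (0 : ℝ) < (Nat.card (S n) : ℝ) := by exact_mod_cast Nat.card_pos
  have hcardQ : Fintype.card Q = M + 2 := by rw [Fintype.card_coe, hQM]
  have hneQ : Nonempty Q := Fintype.card_pos_iff.1 (by omega)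
  have hnt : ∀ l : Q, ∃ l' : Q, l ≠ l' := by
    intro l
    have : Nontrivial Q := Fintype.one_lt_card_iff_nontrivial.1 (by omega)
    obtain ⟨l', hl'⟩ := exists_ne l
    exact ⟨l', hl'.symm⟩
  -- the total masses
  have hmass : ∀ l : Q, 1 - d / 2 ≤ ∏ i, π n i ⟨l, hQG l⟩ Set.univ := by
    intro l
    obtain ⟨l', hl'⟩ := hnt l
    have h3 := hn₀ n hn l l' hl' hne (fun _ => Set.univ) (fun _ => Set.univ)
    rw [Finset.prod_mul_distrib] at h3
    have h4 : {s : S n | ∀ i : I, f n s i ⟨l, hQG l⟩ ∈ (Set.univ : Set (X ⟨l, hQG l⟩)) ∧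
        f n s i ⟨l', hQG l'⟩ ∈ (Set.univ : Set (X ⟨l', hQG l'⟩))} = Set.univ := by
      ext s
      simp
    rw [h4, Set.ncard_univ, div_self hS0.ne'] at h3
    have h5 : ∏ i, π n i ⟨l', hQG l'⟩ Set.univ ≤ 1 :=
      Finset.prod_le_one (fun i _ => (hπ _ _ _ _).1) (fun i _ => (hπ _ _ _ _).2)
    have h6 : 0 ≤ ∏ i, π n i ⟨l, hQG l⟩ Set.univ :=
      Finset.prod_nonneg (fun i _ => (hπ _ _ _ _).1)
    have h7 := (abs_le.1 h3).2
    nlinarith [mul_nonneg h6 (sub_nonneg.2 h5)]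
  have hbound : ∀ k : κ,
      ({s : S n | ∀ l : Q, s ∉ {s : S n | ∀ i, f n s i ⟨l, hQG l⟩ ∈
        E k i ⟨l, hQG l⟩}}.ncard : ℝ) ≤ η * (Nat.card (S n) : ℝ) := by
    intro k
    let μ : Q → ℝ := fun l => ∏ i, π n i ⟨l, hQG l⟩ (E k i ⟨l, hQG l⟩)
    have hμc : ∀ l, C ≤ μ l := by
      intro l
      rw [hC, ← Finset.card_univ, ← Finset.prod_const]
      exact Finset.prod_le_prod (fun _ _ => hc.le) (fun i _ => hshare k i n ⟨l, hQG l⟩)
    have hμ1 : ∀ l, μ l ≤ 1 := by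
      intro l
      exact Finset.prod_le_one (fun i _ => (hπ _ _ _ _).1) (fun i _ => (hπ _ _ _ _).2)
    have h2 : ∀ i j : Q, i ≠ j → |(({s : S n | ∀ t, f n s t ⟨i, hQG i⟩ ∈ E k t ⟨i, hQG i⟩} ∩
        {s : S n | ∀ t, f n s t ⟨j, hQG j⟩ ∈ E k t ⟨j, hQG j⟩}).ncard : ℝ) /
          (Nat.card (S n) : ℝ) - μ i * μ j| ≤ d := by
      intro i j hij
      have h3 := hn₀ n hn i j hij hne (fun t => E k t ⟨i, hQG i⟩) (fun t => E k t ⟨j, hQG j⟩)
      rw [Finset.prod_mul_distrib] at h3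
      have h4 : {s : S n | ∀ t, f n s t ⟨i, hQG i⟩ ∈ E k t ⟨i, hQG i⟩} ∩
          {s : S n | ∀ t, f n s t ⟨j, hQG j⟩ ∈ E k t ⟨j, hQG j⟩} =
          {s : S n | ∀ t, f n s t ⟨i, hQG i⟩ ∈ E k t ⟨i, hQG i⟩ ∧
            f n s t ⟨j, hQG j⟩ ∈ E k t ⟨j, hQG j⟩} := by
        ext s
        simp only [Set.mem_inter_iff, Set.mem_setOf_eq]
        exact ⟨fun h t => ⟨h.1 t, h.2 t⟩, fun h => ⟨fun t => (h t).1, fun t => (h t).2⟩⟩
      rw [h4]
      exact h3.trans (by linarith)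
    have h1 : ∀ i : Q, |(({s : S n | ∀ t, f n s t ⟨i, hQG i⟩ ∈ E k t ⟨i, hQG i⟩}).ncard : ℝ) /
          (Nat.card (S n) : ℝ) - μ i| ≤ d := by
      intro i
      obtain ⟨j, hij⟩ := hnt i
      have h3 := hn₀ n hn i j hij hne (fun t => E k t ⟨i, hQG i⟩) (fun _ => Set.univ)
      rw [Finset.prod_mul_distrib] at h3
      simp only [Set.mem_univ, and_true] at h3
      have h5 := hmass j
      have h6 : ∏ t, π n t ⟨j, hQG j⟩ Set.univ ≤ 1 :=
        Finset.prod_le_one (fun i _ => (hπ _ _ _ _).1) (fun i _ => (hπ _ _ _ _).2)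
      have h7 : 0 ≤ ∏ t, π n t ⟨i, hQG i⟩ (E k t ⟨i, hQG i⟩) :=
        Finset.prod_nonneg (fun i _ => (hπ _ _ _ _).1)
      have h8 : ∏ t, π n t ⟨i, hQG i⟩ (E k t ⟨i, hQG i⟩) ≤ 1 :=
        Finset.prod_le_one (fun i _ => (hπ _ _ _ _).1) (fun i _ => (hπ _ _ _ _).2)
      obtain ⟨h9, h10⟩ := abs_le.1 h3
      show |_ - ∏ t, π n t ⟨i, hQG i⟩ (E k t ⟨i, hQG i⟩)| ≤ d
      rw [abs_le]
      constructor <;> nlinarith [mul_nonneg h7 (sub_nonneg.2 h6), mul_nonneg h7 (sub_nonneg.2 h5),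
        mul_nonneg hdpos.le (sub_nonneg.2 h8), mul_nonneg hdpos.le h7]
    have hs := Pool.Agent.W216.MF.sieve (S n) Q
      (fun l => {s : S n | ∀ i, f n s i ⟨l, hQG l⟩ ∈ E k i ⟨l, hQG l⟩}) μ C d hCpos hdpos.le
      hμc hμ1 h1 h2
    rw [div_le_iff₀ hS0] at hs
    refine hs.trans (mul_le_mul_of_nonneg_right ?_ hS0.le)
    have h6 : 1 / (C * (Nat.card Q : ℝ)) ≤ η / 2 := by
      rw [Nat.card_eq_fintype_card, hcardQ]
      push_cast
      have h7 : (0 : ℝ) < C * ((M : ℝ) + 2) := by positivity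
      rw [div_le_iff₀ h7]
      have h8 : 2 < (M : ℝ) * (C * η) := by
        rwa [div_lt_iff₀ (by positivity)] at hM
      have h9 : η / 2 * (C * ((M : ℝ) + 2)) = ((M : ℝ) * (C * η)) / 2 + C * η := by ring
      rw [h9]
      have : 0 < C * η := by positivity
      linarith
    have h10 : 4 * d / C ^ 2 = η / 2 := by
      rw [hd]
      field_simp
      ring
    linarith
  have hsub : {s : S n | ¬ ∀ k, ∃ r : G, ∀ i, f n s i r ∈ E k i r} ⊆
      ⋃ k : κ, {s : S n | ∀ l : Q,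
        s ∉ {s : S n | ∀ i, f n s i ⟨l, hQG l⟩ ∈ E k i ⟨l, hQG l⟩}} := by
    intro s hs
    simp only [Set.mem_setOf_eq, not_forall] at hs
    obtain ⟨k, hk⟩ := hs
    rw [Set.mem_iUnion]
    refine ⟨k, fun l hl => hk ⟨⟨l, hQG l⟩, ?_⟩⟩
    intro i
    exact hl i
  have h20 : ({s : S n | ¬ ∀ k, ∃ r : G, ∀ i, f n s i r ∈ E k i r}.ncard : ℝ) ≤
      ∑ k : κ, η * (Nat.card (S n) : ℝ) := by
    refine le_trans ?_ (Finset.sum_le_sum fun k _ => hbound k)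
    have h21 := Set.ncard_le_ncard hsub (Set.toFinite _)
    have h22 := Set.ncard_iUnion_le_of_fintype (fun k : κ => {s : S n | ∀ l : Q,
        s ∉ {s : S n | ∀ i, f n s i ⟨l, hQG l⟩ ∈ E k i ⟨l, hQG l⟩}})
    exact_mod_cast h21.trans h22
  refine h20.trans ?_
  rw [Finset.sum_const, Finset.card_univ, nsmul_eq_mul, ← mul_assoc]
  apply mul_le_mul_of_nonneg_right _ (Nat.cast_nonneg _)
  rw [hη, mul_div_assoc', div_le_iff₀ (by positivity)]
  nlinarith [hε]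

end Pool.Agent.L5helper6.AA
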