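import Pool.Agent.L5helper6.AA.Irr0

/-!
# The number of products of linear factors with given constant term
-/

set_option autoImplicit false

namespace Pool.Agent.L5helper6.AA

open Polynomial Pool.Agent.W458.MF Pool.Agent.L5helper29.AA

/-- sets of tuples with few values of one coordinate are small -/
lemma card_le_of_update {n r M : ℕ} [Fact r.Prime] (B : Finset (Fin n → ZMod r)) (i : Fin n)
    (h : ∀ u : Fin n → ZMod r, ∃ R : Finset (ZMod r), R.card ≤ M ∧
      ∀ v ∈ B, (∀ j, j ≠ i → v j = u j) → v i ∈ R) :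
    B.card ≤ M * r ^ (n - 1) := by
  classical
  have h1 : B.card ≤ M * (B.image (fun u => Function.update u i 0)).card := by
    apply Finset.card_le_mul_card_image
    intro w hw
    obtain ⟨R, hR, hR'⟩ := h w
    refine le_trans (Finset.card_le_card_of_injOn (fun v => v i) ?_ ?_) hR
    · intro v hv
      have hv' : v ∈ B.filter fun a => Function.update a i 0 = w := hv
      rw [Finset.mem_filter] at hv'
      apply hR' v hv'.1
      intro j hj
      rw [← hv'.2, Function.update_of_ne hj]
    · intro v hv v' hv' hvv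
      have hv1 : v ∈ B.filter fun a => Function.update a i 0 = w := hv
      have hv2 : v' ∈ B.filter fun a => Function.update a i 0 = w := hv'
      rw [Finset.mem_filter] at hv1 hv2
      funext j
      by_cases hj : j = i
      · rw [hj]; exact hvv
      · have h2 := congrFun hv1.2 j
        have h3 := congrFun hv2.2 j
        rw [Function.update_of_ne hj] at h2 h3
        rw [h2, h3]
  have h2 : (B.image (fun u => Function.update u i 0)).card ≤ r ^ (n - 1) := by
    have h3 : (Finset.univ : Finset ({j : Fin n // j ≠ i} → ZMod r)).card = r ^ (n - 1) := by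
      rw [Finset.card_univ, Fintype.card_fun, ZMod.card]
      congr 1
      rw [Fintype.card_subtype_compl, Fintype.card_fin, Fintype.card_unique]
    rw [← h3]
    apply Finset.card_le_card_of_injOn (fun u => fun j : {j : Fin n // j ≠ i} => u j)
    · intro _ _; exact Finset.mem_coe.mpr (Finset.mem_univ _)
    · intro v hv v' hv' hvv
      obtain ⟨x, _, rfl⟩ := Finset.mem_image.mp (Finset.mem_coe.mp hv)
      obtain ⟨y, _, rfl⟩ := Finset.mem_image.mp (Finset.mem_coe.mp hv')
      funext j
      by_cases hj : j = i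
      · subst hj; simp
      · exact congrFun hvv ⟨j, hj⟩
  exact h1.trans (Nat.mul_le_mul_left _ h2)

lemma card_pow_eq {r : ℕ} [Fact r.Prime] (e : ℕ) (c : ZMod r) :
    (nthRoots e c).toFinset.card ≤ e :=
  (Multiset.toFinset_card_le _).trans (card_nthRoots e c)

/-- SPL0 -/
theorem spl0 : St_SPL0 := by
  classical
  intro N e hN he
  obtain ⟨n, rfl⟩ : ∃ n, N = n + 1 := ⟨N - 1, by omega⟩
  refine ⟨1 / (2 * (n + 1 : ℕ) ^ n), by positivity, 2 * ((n + n * n + n) * (2 * e)), ?_⟩
  intro r hr hr1 a ha
  haveI : Fact r.Prime := ⟨hr⟩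
  rw [Nat.add_sub_cancel]
  set b : ZMod r := (-1) ^ (n + 1) * a with hb
  have hb0 : b ≠ 0 := mul_ne_zero (pow_ne_zero _ (by simp)) ha
  -- the three kinds of bad tuples
  let B1 : Fin n → Finset (Fin n → ZMod r) := fun i => Finset.univ.filter fun u => u i = 0
  let B2 : Fin n × Fin n → Finset (Fin n → ZMod r) := fun x =>
    Finset.univ.filter fun u => x.1 ≠ x.2 ∧ u x.1 ^ e = u x.2 ^ e
  let B3 : Fin n → Finset (Fin n → ZMod r) := fun i =>
    Finset.univ.filter fun u => (∀ j, u j ≠ 0) ∧ (b / ∏ j, u j) ^ e = u i ^ e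
  have hB1 : ∀ i, (B1 i).card ≤ (2 * e) * r ^ (n - 1) := by
    intro i
    apply card_le_of_update _ i
    intro u
    refine ⟨{0}, by simp; omega, ?_⟩
    intro v hv _
    simpa [B1] using hv
  have hB2 : ∀ x, (B2 x).card ≤ (2 * e) * r ^ (n - 1) := by
    intro x
    apply card_le_of_update _ x.1
    intro u
    refine ⟨(nthRoots e (u x.2 ^ e)).toFinset, (card_pow_eq e _).trans (by omega), ?_⟩
    intro v hv huv
    simp only [B2, Finset.mem_filter, Finset.mem_univ, true_and] at hv
    rw [Multiset.mem_toFinset, mem_nthRoots he, hv.2, huv x.2 hv.1.symm]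
  have hB3 : ∀ i, (B3 i).card ≤ (2 * e) * r ^ (n - 1) := by
    intro i
    apply card_le_of_update _ i
    intro u
    refine ⟨(nthRoots (2 * e) ((b / ∏ j ∈ Finset.univ.erase i, u j) ^ e)).toFinset,
      card_pow_eq _ _, ?_⟩
    intro v hv huv
    simp only [B3, Finset.mem_filter, Finset.mem_univ, true_and] at hv
    have h1 : ∏ j, v j = v i * ∏ j ∈ Finset.univ.erase i, u j := by
      rw [← Finset.mul_prod_erase Finset.univ v (Finset.mem_univ i)]
      congr 1
      apply Finset.prod_congr rfl
      intro j hj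
      exact huv j (Finset.ne_of_mem_erase hj)
    have h2 : ∏ j ∈ Finset.univ.erase i, u j ≠ 0 := by
      rw [Finset.prod_ne_zero_iff]
      intro j hj
      rw [← huv j (Finset.ne_of_mem_erase hj)]
      exact hv.1 j
    have hvi := hv.1 i
    rw [Multiset.mem_toFinset, mem_nthRoots (by omega)]
    have h3 := hv.2
    rw [h1] at h3
    have h4 : b / (v i * ∏ j ∈ Finset.univ.erase i, u j) =
        (b / ∏ j ∈ Finset.univ.erase i, u j) / v i := by
      field_simp
    rw [h4, div_pow, div_eq_iff (pow_ne_zero _ hvi)] at h3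
    rw [h3, ← pow_add]
    congr 1
    ring
  set Bad : Finset (Fin n → ZMod r) := Finset.univ.biUnion B1 ∪ (Finset.univ.biUnion B2 ∪
    Finset.univ.biUnion B3) with hBad
  have hBadc : Bad.card ≤ (n + n * n + n) * (2 * e) * r ^ (n - 1) := by
    have k1 : (Finset.univ.biUnion B1).card ≤ n * ((2 * e) * r ^ (n - 1)) := by
      refine Finset.card_biUnion_le.trans ((Finset.sum_le_card_nsmul _ _ _
        (fun i _ => hB1 i)).trans ?_)
      simp
    have k2 : (Finset.univ.biUnion B2).card ≤ (n * n) * ((2 * e) * r ^ (n - 1)) := by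
      refine Finset.card_biUnion_le.trans ((Finset.sum_le_card_nsmul _ _ _
        (fun i _ => hB2 i)).trans ?_)
      simp
    have k3 : (Finset.univ.biUnion B3).card ≤ n * ((2 * e) * r ^ (n - 1)) := by
      refine Finset.card_biUnion_le.trans ((Finset.sum_le_card_nsmul _ _ _
        (fun i _ => hB3 i)).trans ?_)
      simp
    refine (Finset.card_union_le _ _).trans ?_
    have k4 := Finset.card_union_le (Finset.univ.biUnion B2) (Finset.univ.biUnion B3)
    calc _ ≤ n * ((2 * e) * r ^ (n - 1)) + ((n * n) * ((2 * e) * r ^ (n - 1)) +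
          n * ((2 * e) * r ^ (n - 1))) := by omega
      _ = _ := by ring
  set Good : Finset (Fin n → ZMod r) := Badᶜ with hGood
  have hgood : ∀ u ∈ Good, (∀ i, u i ≠ 0) ∧ (∀ i j, i ≠ j → u i ^ e ≠ u j ^ e) ∧
      ∀ i, (b / ∏ j, u j) ^ e ≠ u i ^ e := by
    intro u hu
    rw [hGood, Finset.mem_compl, hBad, Finset.mem_union, Finset.mem_union, not_or, not_or] at hu
    obtain ⟨h1, h2, h3⟩ := hu
    have h0 : ∀ i, u i ≠ 0 := by
      intro i hi
      exact h1 (Finset.mem_biUnion.mpr ⟨i, Finset.mem_univ _, by simp [B1, hi]⟩)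
    refine ⟨h0, ?_, ?_⟩
    · intro i j hij h
      exact h2 (Finset.mem_biUnion.mpr ⟨(i, j), Finset.mem_univ _, by simp [B2, hij, h]⟩)
    · intro i h
      exact h3 (Finset.mem_biUnion.mpr ⟨i, Finset.mem_univ _, by
        simp only [B3, Finset.mem_filter, Finset.mem_univ, true_and]; exact ⟨h0, h⟩⟩)
  have hGoodc : r ^ n ≤ 2 * Good.card := by
    have h1 : Good.card + Bad.card = r ^ n := by
      rw [hGood, Finset.card_compl_add_card, Fintype.card_fun, ZMod.card, Fintype.card_fin]
    have h2 : 2 * ((n + n * n + n) * (2 * e) * r ^ (n - 1)) ≤ r ^ n := by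
      have h3 : r ^ n = r * r ^ (n - 1) := by
        rw [← pow_succ']; congr 1; omega
      rw [h3]
      calc 2 * ((n + n * n + n) * (2 * e) * r ^ (n - 1)) =
          (2 * ((n + n * n + n) * (2 * e))) * r ^ (n - 1) := by ring
        _ ≤ _ := Nat.mul_le_mul_right _ hr1
    omega
  -- the set of roots
  let T : (Fin n → ZMod r) → Finset (ZMod r) := fun u => insert (b / ∏ j, u j)
    (Finset.univ.image u)
  have hTc : ∀ u ∈ Good, (T u).card = n + 1 := by
    intro u hu
    obtain ⟨_, h2, h3⟩ := hgood u hu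
    have hinj : Function.Injective u := by
      intro i j hij
      by_contra h
      exact h2 i j h (by rw [hij])
    rw [Finset.card_insert_of_notMem, Finset.card_image_of_injective _ hinj, Finset.card_univ,
      Fintype.card_fin]
    intro h
    obtain ⟨i, _, hi⟩ := Finset.mem_image.mp h
    exact h3 i (by rw [← hi])
  have hTe : ∀ u ∈ Good, ∀ t ∈ T u, ∀ s ∈ T u, t ≠ s → t ^ e ≠ s ^ e := by
    intro u hu t ht s hs hts
    obtain ⟨_, h2, h3⟩ := hgood u hu
    simp only [T, Finset.mem_insert, Finset.mem_image, Finset.mem_univ, true_and] at ht hs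
    rcases ht with rfl | ⟨i, rfl⟩ <;> rcases hs with rfl | ⟨j, rfl⟩
    · exact absurd rfl hts
    · exact h3 j
    · exact fun h => h3 i h.symm
    · exact h2 i j (fun h => hts (by rw [h]))
  have hTprod : ∀ u ∈ Good, ∏ t ∈ T u, t = b := by
    intro u hu
    obtain ⟨h1, h2, h3⟩ := hgood u hu
    have hinj : Function.Injective u := by
      intro i j hij
      by_contra h
      exact h2 i j h (by rw [hij])
    rw [Finset.prod_insert, Finset.prod_image (fun _ _ _ _ h => hinj h)]
    · exact div_mul_cancel₀ _ (Finset.prod_ne_zero_iff.mpr fun i _ => h1 i)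
    · intro h
      obtain ⟨i, _, hi⟩ := Finset.mem_image.mp h
      exact h3 i (by rw [← hi])
  let Φ : (Fin n → ZMod r) → (ZMod r)[X] := fun u => ∏ t ∈ T u, (X - C t)
  set E : Set (ZMod r)[X] := {f : (ZMod r)[X] | f ∈ splitE (n + 1) e r ∧ f.coeff 0 = a} with hE
  have hEfin : E.Finite := by
    apply (finite_natDegree_le r (n + 1)).subset
    rintro f ⟨⟨S, hS, rfl, _⟩, _⟩
    change (∏ t ∈ S, (X - C t)).natDegree ≤ n + 1
    rw [natDegree_prod_of_monic _ _ (fun t _ => monic_X_sub_C t)]
    simp [hS]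
  have hΦE : ∀ u ∈ Good, Φ u ∈ E := by
    intro u hu
    refine ⟨⟨T u, hTc u hu, rfl, hTe u hu⟩, ?_⟩
    change (∏ t ∈ T u, (X - C t)).coeff 0 = a
    rw [coeff_zero_eq_eval_zero, eval_prod]
    simp only [eval_sub, eval_X, eval_C, zero_sub]
    rw [Finset.prod_neg, hTc u hu, hTprod u hu, hb, ← mul_assoc, ← mul_pow]
    simp
  have hcount : Good.card ≤ (n + 1) ^ n * (Good.image Φ).card := by
    apply Finset.card_le_mul_card_image
    intro f hf
    obtain ⟨u₀, hu₀, rfl⟩ := Finset.mem_image.mp hf
    have h1 : (Good.filter fun u => Φ u = Φ u₀) ⊆ Fintype.piFinset (fun _ : Fin n => T u₀) := by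
      intro u hu
      rw [Finset.mem_filter] at hu
      have h2 : T u = T u₀ := by
        have h3 : (Φ u).roots = (Φ u₀).roots := by rw [hu.2]
        simp only [Φ] at h3
        rw [roots_prod_X_sub_C, roots_prod_X_sub_C] at h3
        exact Finset.val_injective h3
      rw [Fintype.mem_piFinset]
      intro i
      rw [← h2]
      simp [T]
    refine (Finset.card_le_card h1).trans ?_
    rw [Fintype.card_piFinset, Finset.prod_const, Finset.card_univ, Fintype.card_fin,
      hTc u₀ hu₀]
  have himage : (Good.image Φ).card ≤ E.ncard := by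
    rw [← Set.ncard_coe_finset]
    apply Set.ncard_le_ncard _ hEfin
    intro f hf
    obtain ⟨u, hu, rfl⟩ := Finset.mem_image.mp (Finset.mem_coe.mp hf)
    exact hΦE u hu
  have hfinal : r ^ n ≤ 2 * (n + 1) ^ n * E.ncard := by
    calc r ^ n ≤ 2 * Good.card := hGoodc
      _ ≤ 2 * ((n + 1) ^ n * E.ncard) :=
        Nat.mul_le_mul_left _ (hcount.trans (Nat.mul_le_mul_left _ himage))
      _ = _ := by ring
  have hfinal' : (r : ℝ) ^ n ≤ 2 * ((n + 1 : ℕ) : ℝ) ^ n * (E.ncard : ℝ) := by
    exact_mod_cast hfinal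
  have hpos : (0 : ℝ) < 2 * ((n + 1 : ℕ) : ℝ) ^ n := by positivity
  rw [div_mul_eq_mul_div, one_mul, div_le_iff₀ hpos]
  linarith

end Pool.Agent.L5helper6.AA
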