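import Pool.Agent.L5helper29.AA.Fam
import Pool.Agent.W216.MF.Uni

/-!
# The sieve for families which are equidistributed modulo primes
-/

set_option autoImplicit false

namespace Pool.Agent.L5helper6.AA

open Polynomial NumberField Pool.Agent.W458.MF Pool.Agent.L5helper29.AA

lemma share_le_one (N r : ℕ) [Fact r.Prime] (δ : ZMod r) (E : Set (ZMod r)[X]) :
    share N r δ E ≤ 1 := by
  unfold share
  apply div_le_one_of_le₀ _ (Nat.cast_nonneg _)
  have h : {B : Matrix (Fin N) (Fin N) (ZMod r) | B.det = δ ∧ B.charpoly ∈ E} ⊆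
      {B : Matrix (Fin N) (Fin N) (ZMod r) | B.det = δ} := fun B hB => hB.1
  exact_mod_cast Set.ncard_le_ncard h (Set.toFinite _)

lemma share_univ (N r : ℕ) (δ : ZMod r) (E : Set (ZMod r)[X]) (h : 0 < share N r δ E) :
    share N r δ Set.univ = 1 := by
  unfold share at h ⊢
  have h1 : ({B : Matrix (Fin N) (Fin N) (ZMod r) | B.det = δ}.ncard : ℝ) ≠ 0 := by
    intro h0
    rw [h0, div_zero] at h
    exact lt_irrefl _ h
  simp only [Set.mem_univ, and_true]
  exact div_self h1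

/-- ALMOST -/
theorem almost : St_ALMOST := by
  classical
  intro K _ _ J κ _ _ N S _ P δ hEqui G hG hGp φ E c hc hδ hshare ε hε
  obtain ⟨r₀, hE⟩ := hEqui
  set C : ℝ := c ^ Fintype.card J with hC
  have hCpos : 0 < C := pow_pos hc _
  set η : ℝ := ε / ((Fintype.card κ : ℝ) + 1) with hη
  have hηpos : 0 < η := by positivity
  obtain ⟨M, hM⟩ := exists_nat_gt (2 / (C * η))
  have hG' : (G \ {r | r < r₀}).Infinite := hG.diff (Set.finite_lt_nat r₀)
  obtain ⟨Q, hQ, hQM⟩ := hG'.exists_subset_card_eq (M + 2)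
  have hQG : ∀ l : Q, (l : ℕ) ∈ G := fun l => (hQ l.2).1
  have hQr : ∀ l : Q, r₀ ≤ (l : ℕ) := fun l => not_lt.mp (hQ l.2).2
  have hQp : ∀ l : Q, (l : ℕ).Prime := fun l => hGp l (hQG l)
  set d : ℝ := η * C ^ 2 / 8 with hd
  have hdpos : 0 < d := by positivity
  have hev : ∀ᶠ n in Filter.atTop, ∀ l l' : Q, l ≠ l' → Nonempty (S n) →
      ∀ (A : J → Set (ZMod l)[X]) (A' : J → Set (ZMod l')[X]),
        |({s : S n | ∀ j, (P n s j).map (φ ⟨l, hQG l⟩) ∈ A j ∧
            (P n s j).map (φ ⟨l', hQG l'⟩) ∈ A' j}.ncard : ℝ) /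
            (Nat.card (S n) : ℝ) -
          ∏ j, share (N j) l (φ ⟨l, hQG l⟩ (δ n j)) (A j) *
            share (N j) l' (φ ⟨l', hQG l'⟩ (δ n j)) (A' j)| ≤ d := by
    rw [Filter.eventually_all]
    intro l
    rw [Filter.eventually_all]
    intro l'
    by_cases hll : l = l'
    · exact Filter.Eventually.of_forall fun m h => absurd hll h
    · obtain ⟨n₀, h4⟩ := hE l l' (φ ⟨l, hQG l⟩) (φ ⟨l', hQG l'⟩) (hQp l) (hQp l') (hQr l)
        (hQr l') (fun h => hll (Subtype.ext h)) d hdpos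
      exact Filter.eventually_atTop.2 ⟨n₀, fun n hn _ => h4 n hn⟩
  obtain ⟨n₀, hn₀⟩ := Filter.eventually_atTop.1 hev
  refine ⟨n₀, fun n hn => ?_⟩
  by_cases hne : Nonempty (S n)
  swap
  · have : IsEmpty (S n) := not_nonempty_iff.mp hne
    rw [Set.eq_empty_of_isEmpty {s : S n | _}, Set.ncard_empty, Nat.cast_zero]
    positivity
  have hcardQ : Fintype.card Q = M + 2 := by rw [Fintype.card_coe, hQM]
  have hneQ : Nonempty Q := Fintype.card_pos_iff.1 (by omega)
  have hnt : ∀ l : Q, ∃ l' : Q, l ≠ l' := by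
    intro l
    have : Nontrivial Q := Fintype.one_lt_card_iff_nontrivial.1 (by omega)
    obtain ⟨l', hl'⟩ := exists_ne l
    exact ⟨l', hl'.symm⟩
  have hbound : ∀ k : κ,
      ({s : S n | ∀ l : Q, s ∉ {s : S n | ∀ j, (P n s j).map (φ ⟨l, hQG l⟩) ∈ E k j l}}.ncard : ℝ)
        ≤ η * (Nat.card (S n) : ℝ) := by
    intro k
    let μ : Q → ℝ := fun l => ∏ j, share (N j) l (φ ⟨l, hQG l⟩ (δ n j)) (E k j l)
    have hμc : ∀ l, C ≤ μ l := by
      intro l
      rw [hC, ← Finset.card_univ, ← Finset.prod_const]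
      exact Finset.prod_le_prod (fun _ _ => hc.le) (fun j _ => hshare k j n ⟨l, hQG l⟩)
    have hμ1 : ∀ l, μ l ≤ 1 := by
      intro l
      haveI : Fact (l : ℕ).Prime := ⟨hQp l⟩
      apply Finset.prod_le_one
      · intro j _
        exact hc.le.trans (hshare k j n ⟨l, hQG l⟩)
      · intro j _
        exact share_le_one _ _ _ _
    have h2 : ∀ i j : Q, i ≠ j → |(({s : S n | ∀ t, (P n s t).map (φ ⟨i, hQG i⟩) ∈ E k t i} ∩
        {s : S n | ∀ t, (P n s t).map (φ ⟨j, hQG j⟩) ∈ E k t j}).ncard : ℝ) /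
          (Nat.card (S n) : ℝ) - μ i * μ j| ≤ d := by
      intro i j hij
      have h3 := hn₀ n hn i j hij hne (fun t => E k t i) (fun t => E k t j)
      rw [Finset.prod_mul_distrib] at h3
      have h4 : {s : S n | ∀ t, (P n s t).map (φ ⟨i, hQG i⟩) ∈ E k t i} ∩
          {s : S n | ∀ t, (P n s t).map (φ ⟨j, hQG j⟩) ∈ E k t j} =
          {s : S n | ∀ t, (P n s t).map (φ ⟨i, hQG i⟩) ∈ E k t i ∧
            (P n s t).map (φ ⟨j, hQG j⟩) ∈ E k t j} := by
        ext s
        simp only [Set.mem_inter_iff, Set.mem_setOf_eq]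
        exact ⟨fun h t => ⟨h.1 t, h.2 t⟩, fun h => ⟨fun t => (h t).1, fun t => (h t).2⟩⟩
      rw [h4]
      exact h3
    have h1 : ∀ i : Q, |(({s : S n | ∀ t, (P n s t).map (φ ⟨i, hQG i⟩) ∈ E k t i}).ncard : ℝ) /
          (Nat.card (S n) : ℝ) - μ i| ≤ d := by
      intro i
      obtain ⟨j, hij⟩ := hnt i
      have h3 := hn₀ n hn i j hij hne (fun t => E k t i) (fun _ => Set.univ)
      rw [Finset.prod_mul_distrib] at h3
      have h5 : ∏ t, share (N t) j (φ ⟨j, hQG j⟩ (δ n t)) Set.univ = 1 := by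
        apply Finset.prod_eq_one
        intro t _
        exact share_univ _ _ _ _ (hc.trans_le (hshare k t n ⟨j, hQG j⟩))
      simp only [Set.mem_univ, and_true] at h3
      rw [h5, mul_one] at h3
      exact h3
    have hs := Pool.Agent.W216.MF.sieve (S n) Q
      (fun l => {s : S n | ∀ j, (P n s j).map (φ ⟨l, hQG l⟩) ∈ E k j l}) μ C d hCpos hdpos.le
      hμc hμ1 h1 h2
    have hS0 : (0 : ℝ) < (Nat.card (S n) : ℝ) := by exact_mod_cast Nat.card_pos
    rw [div_le_iff₀ hS0] at hs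
    refine hs.trans (mul_le_mul_of_nonneg_right ?_ hS0.le)
    have h6 : 1 / (C * (Nat.card Q : ℝ)) ≤ η / 2 := by
      rw [Nat.card_eq_fintype_card, hcardQ]
      push_cast
      have h7 : (0 : ℝ) < C * ((M : ℝ) + 2) := by positivity
      rw [div_le_iff₀ h7]
      have h8 : 2 < (M : ℝ) * (C * η) := by
        rwa [div_lt_iff₀ (by positivity)] at hM
      have h9 : η / 2 * (C * ((M : ℝ) + 2)) = ((M : ℝ) * (C * η)) / 2 + C * η := by ring
      rw [h9]
      have : 0 < C * η := by positivity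
      linarith
    have h10 : 4 * d / C ^ 2 = η / 2 := by
      rw [hd]
      field_simp
      ring
    linarith
  have hsub : {s : S n | ¬ ∀ k, ∃ r : G, ∀ j, (P n s j).map (φ r) ∈ E k j r} ⊆
      ⋃ k : κ, {s : S n | ∀ l : Q,
        s ∉ {s : S n | ∀ j, (P n s j).map (φ ⟨l, hQG l⟩) ∈ E k j l}} := by
    intro s hs
    simp only [Set.mem_setOf_eq, not_forall] at hs
    obtain ⟨k, hk⟩ := hs
    rw [Set.mem_iUnion]
    refine ⟨k, fun l hl => hk ⟨⟨l, hQG l⟩, hl⟩⟩
  have h20 : ({s : S n | ¬ ∀ k, ∃ r : G, ∀ j, (P n s j).map (φ r) ∈ E k j r}.ncard : ℝ) ≤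
      ∑ k : κ, η * (Nat.card (S n) : ℝ) := by
    refine le_trans ?_ (Finset.sum_le_sum fun k _ => hbound k)
    have h21 := Set.ncard_le_ncard hsub (Set.toFinite _)
    have h22 := Set.ncard_iUnion_le_of_fintype (fun k : κ => {s : S n | ∀ l : Q,
        s ∉ {s : S n | ∀ j, (P n s j).map (φ ⟨l, hQG l⟩) ∈ E k j l}})
    exact_mod_cast h21.trans h22
  refine h20.trans ?_
  rw [Finset.sum_const, Finset.card_univ, nsmul_eq_mul, ← mul_assoc]
  apply mul_le_mul_of_nonneg_right _ (Nat.cast_nonneg _)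
  rw [hη, mul_div_assoc', div_le_iff₀ (by positivity)]
  nlinarith [hε]

end Pool.Agent.L5helper6.AA
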